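import Mathlib
import Pool.Agent.H8.Tau3

set_option autoImplicit false

namespace Pool.Agent.Results.MP_b17faa_gt.Collapse

open Set Pool.Agent.H8.Tau

/-- open ω-, τ-, γ-covers of the subspace `X` of the reals -/
abbrev Ω (X : Set ℝ) : Set (Set X) → Prop := Om IsOpen
abbrev T (X : Set ℝ) : Set (Set X) → Prop := Ta IsOpen
abbrev Γ (X : Set ℝ) : Set (Set X) → Prop := Ga IsOpen

theorem result (X : Set ℝ) (hX : X.Nonempty) :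
    (S1 (Γ X) (T X) → S1 (Γ X) (Γ X) ∧ Ufin (Γ X) (Γ X)) ∧
    (S1 (T X) (T X) → S1 (Γ X) (Γ X) ∧ S1 (T X) (Γ X) ∧ Ufin (Γ X) (Γ X)) ∧
    (S1 (Ω X) (T X) →
      S1 (Γ X) (Γ X) ∧ S1 (T X) (Γ X) ∧ S1 (Ω X) (Γ X) ∧ Ufin (Γ X) (Γ X)) := by
  haveI := hX.to_subtype
  have hto : ∀ 𝒰, T X 𝒰 → Ω X 𝒰 := fun 𝒰 h => it_om h.1 h.enum'
  have a : S1 (Γ X) (T X) → S1 (Γ X) (Γ X) ∧ Ufin (Γ X) (Γ X) := fun h =>
    ⟨GG_of h, (GG_of h).ufin⟩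
  have b : S1 (T X) (T X) → S1 (Γ X) (Γ X) ∧ S1 (T X) (Γ X) ∧ Ufin (Γ X) (Γ X) := fun h =>
    have := a (h.mono (fun _ => Ga.ta) fun _ => id)
    ⟨this.1, TG_of h, this.2⟩
  refine ⟨a, b, fun h => ?_⟩
  have := b (h.mono hto fun _ => id)
  exact ⟨this.1, this.2.1, OG_of h, this.2.2⟩

end Pool.Agent.Results.MP_b17faa_gt.Collapse
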