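import Pool.Agent.H18.Cr3

set_option autoImplicit false

namespace Pool.Agent.Results.MP_b17faa_gt.GammaT

open Set Pool.Agent.H8.Tau

/-- open covers, open ω-, τ-, γ-covers of the subspace `X` of the reals -/
abbrev O (X : Set ℝ) : Set (Set X) → Prop := Cov IsOpen
abbrev Ω (X : Set ℝ) : Set (Set X) → Prop := Om IsOpen
abbrev T (X : Set ℝ) : Set (Set X) → Prop := Ta IsOpen
abbrev Γ (X : Set ℝ) : Set (Set X) → Prop := Ga IsOpen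

/-- Under CH some set of reals has (0), (1), (2), (3), (12), (13), (18), (19), (20) and fails
(5), (6), (7), (14), (15). -/
theorem result (hCH : Cardinal.continuum.{0} = Cardinal.aleph 1) :
    ∃ Y : Set ℝ, (S1 (Γ Y) (Γ Y) ∧ S1 (Γ Y) (T Y) ∧ S1 (Γ Y) (Ω Y) ∧ S1 (Γ Y) (O Y) ∧
      Sfin (Γ Y) (T Y) ∧ Sfin (Γ Y) (Ω Y) ∧ Ufin (Γ Y) (Γ Y) ∧ Ufin (Γ Y) (T Y) ∧
      Ufin (Γ Y) (Ω Y)) ∧ ¬ S1 (T Y) (T Y) ∧ ¬ S1 (T Y) (Ω Y) ∧ ¬ S1 (T Y) (O Y) ∧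
      ¬ Sfin (T Y) (T Y) ∧ ¬ Sfin (T Y) (Ω Y) := by
  obtain ⟨X, Y, -, h1, -, h2, 𝒰, u1, u2, u3⟩ := Pool.Agent.H18.Cr.real hCH
  haveI := h1.to_subtype
  have hto : ∀ 𝒰, T Y 𝒰 → Ω Y 𝒰 := fun 𝒰 h => it_om h.1 h.enum'
  have a : S1 (Γ Y) (Γ Y) := by
    intro 𝒱 hV
    choose u a b using fun n => (hV n).enum
    obtain ⟨g, hg⟩ := h2 u (fun n m => ((hV n).1.1 _ (a n m)).measurableSet) b
    exact ⟨fun n => u n (g n), fun n => a n _, ga_range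
      (fun n => (hV n).1.1 _ (a n _)) (fun n t => (hV n).1.2.2 (t ▸ a n (g n))) hg⟩
  have b : S1 (Γ Y) (T Y) := a.mono (fun _ => id) fun _ => Ga.ta
  have c : S1 (Γ Y) (Ω Y) := b.mono (fun _ => id) hto
  have d : ¬ S1 (T Y) (O Y) := fun t => by
    obtain ⟨U, a, -, b, -⟩ := t 𝒰 fun n => (u1 n).2
    obtain ⟨y, hy⟩ := u2 U a
    obtain ⟨_, ⟨n, rfl⟩, s⟩ := (show y ∈ ⋃₀ range U from b ▸ mem_univ y)
    exact hy n s
  have e : ¬ Sfin (T Y) (Ω Y) := fun t => by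
    obtain ⟨F, a, -, b⟩ := t 𝒰 fun n => (u1 n).2
    obtain ⟨y, z, s⟩ := u3 F a
    obtain ⟨V, v1, v2⟩ := b {y, z} (toFinite _)
    obtain ⟨n, hn⟩ := mem_iUnion.mp v1
    exact s n V hn ⟨v2 (Or.inl rfl), v2 (Or.inr rfl)⟩
  exact ⟨Y, ⟨a, b, c, c.mono (fun _ => id) fun _ t => t.1, b.sfin, c.sfin, a.ufin, b.ufin, c.ufin⟩,
    fun t => d (t.mono (fun _ => id) fun _ t => t.1),
    fun t => d (t.mono (fun _ => id) fun _ t => t.1), d,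
    fun t => e (t.mono (fun _ => id) hto), e⟩

end Pool.Agent.Results.MP_b17faa_gt.GammaT
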