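import Mathlib
import Pool.Agent.H8.Tau3

set_option autoImplicit false

namespace Pool.Agent.Results.MP_b17faa_gt.NonImpl

open Set Pool.Agent.H8.Tau

/-- open covers, open ω-, τ-, γ-covers of the subspace `X` of the reals -/
abbrev O (X : Set ℝ) : Set (Set X) → Prop := Cov IsOpen
abbrev Ω (X : Set ℝ) : Set (Set X) → Prop := Om IsOpen
abbrev T (X : Set ℝ) : Set (Set X) → Prop := Ta IsOpen
abbrev Γ (X : Set ℝ) : Set (Set X) → Prop := Ga IsOpen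

theorem result (h : Cardinal.continuum.{0} = Cardinal.aleph 1) :
    ∃ S : Set ℝ, S1 (T S) (Γ S) ∧ S1 (T S) (T S) ∧ S1 (T S) (Ω S) ∧ S1 (T S) (O S) ∧
      Sfin (T S) (T S) ∧ Sfin (T S) (Ω S) ∧
      ¬ S1 (Ω S) (Ω S) ∧ ¬ S1 (O S) (O S) ∧ ¬ Sfin (Ω S) (Ω S) := by
  obtain ⟨S, hS, W, h1, h2, h3, h4⟩ := sier_sq h
  haveI : Nonempty S :=
    (nonempty_iff_ne_empty.2 fun e : S = ∅ => hS.1 (e ▸ countable_empty)).to_subtype
  have hto : ∀ 𝒰, T S 𝒰 → Ω S 𝒰 := fun 𝒰 h => it_om h.1 h.enum'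
  have h5 : S1 (T S) (T S) := hS.tg.mono (fun _ => id) fun _ => Ga.ta
  have h6 : S1 (T S) (Ω S) := h5.mono (fun _ => id) hto
  exact ⟨S, hS.tg, h5, h6, h6.mono (fun _ => id) fun _ h => h.1, h5.sfin, h6.sfin,
    fun h => hS.not_roth (h.mono (fun _ => id) fun _ h => h.1),
    fun h => hS.not_roth (h.mono (fun _ h => h.1) fun _ => id), not_oo h1 h2 h3 h4⟩

end Pool.Agent.Results.MP_b17faa_gt.NonImpl
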