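import Pool.Agent.H18.OT2
import Pool.Agent.H18.MT3

set_option autoImplicit false

namespace Pool.Agent.Results.MP_b17faa_gt.Row16

open Set Pool.Agent.H8.Tau Pool.Agent.H18.OT

/-- open covers, open ω-, τ-, γ-covers of the subspace `X` of the reals -/
abbrev O (X : Set ℝ) : Set (Set X) → Prop := Cov IsOpen
abbrev Ω (X : Set ℝ) : Set (Set X) → Prop := Om IsOpen
abbrev T (X : Set ℝ) : Set (Set X) → Prop := Ta IsOpen
abbrev Γ (X : Set ℝ) : Set (Set X) → Prop := Ga IsOpen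

/-- (16) implies (2), (3), (6), (7), (10), (11). -/
theorem pos (X : Set ℝ) (hX : X.Nonempty) (h : Sfin (Ω X) (T X)) :
    S1 (Γ X) (Ω X) ∧ S1 (Γ X) (O X) ∧ S1 (T X) (Ω X) ∧ S1 (T X) (O X) ∧
      S1 (Ω X) (Ω X) ∧ S1 (O X) (O X) := by
  haveI := hX.to_subtype
  have hto : ∀ 𝒰, T X 𝒰 → Ω X 𝒰 := fun 𝒰 h => it_om h.1 h.enum'
  have ot : OT X := fun 𝒰 hU => by
    obtain ⟨F, f1, f2⟩ := h (fun _ => 𝒰) fun _ => hU
    exact ⟨_, iUnion_subset fun n => (f1 n).2, f2⟩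
  have a := s1oo ot
  have b : S1 (T X) (Ω X) := a.mono hto fun _ => id
  have c : S1 (Γ X) (Ω X) := b.mono (fun _ => Ga.ta) fun _ => id
  refine ⟨c, c.mono (fun _ => id) fun _ t => t.1, b, b.mono (fun _ => id) fun _ t => t.1, a,
    fun 𝒞 hC => ?_⟩
  have cv : ∀ n x, ∃ U ∈ 𝒞 n, x ∈ U := fun n x => (show x ∈ ⋃₀ 𝒞 n from (hC n).2.1 ▸ mem_univ x)
  have : ∃ C : ℕ → Set X, (∀ n, C n ∈ 𝒞 n) ∧ ∀ x, ∃ n, x ∈ C n := by
    rcases finite_or_infinite X with f | f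
    · obtain ⟨g, hg⟩ := exists_surjective_nat X
      choose C c1 c2 using fun n => cv n (g n)
      exact ⟨C, c1, fun x => by obtain ⟨n, rfl⟩ := hg x; exact ⟨n, c2 n⟩⟩
    · obtain ⟨C, c1, c2⟩ := roth ot 𝒞 (fun n => (hC n).1) cv
      exact ⟨C, c1, fun x => (c2 x).exists⟩
  obtain ⟨C, c1, c2⟩ := this
  exact ⟨C, c1, cov_range (fun n => (hC n).1 _ (c1 n)) (fun n t => (hC n).2.2 (t ▸ c1 n)) c2⟩

/-- All pairs of row (16): (16) implies (2), (3), (6), (7), (10), (11), and under CH some set of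
reals has (16), hence (14) and (12), and fails (0), (1), (4), (5), (8), (9), (18). -/
theorem result :
    (∀ X : Set ℝ, X.Nonempty → Sfin (Ω X) (T X) →
      S1 (Γ X) (Ω X) ∧ S1 (Γ X) (O X) ∧ S1 (T X) (Ω X) ∧ S1 (T X) (O X) ∧
        S1 (Ω X) (Ω X) ∧ S1 (O X) (O X)) ∧
    (Cardinal.continuum.{0} = Cardinal.aleph 1 →
      ∃ X : Set ℝ, Sfin (Ω X) (T X) ∧ Sfin (T X) (T X) ∧ Sfin (Γ X) (T X) ∧
        ¬ S1 (Γ X) (Γ X) ∧ ¬ S1 (Γ X) (T X) ∧ ¬ S1 (T X) (Γ X) ∧ ¬ S1 (T X) (T X) ∧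
        ¬ S1 (Ω X) (Γ X) ∧ ¬ S1 (Ω X) (T X) ∧ ¬ Ufin (Γ X) (Γ X)) := by
  refine ⟨pos, fun hCH => ?_⟩
  obtain ⟨X, φ, h⟩ := Pool.Agent.H18.MT.real hCH
  haveI := h.ne
  have hto : ∀ 𝒰, T X 𝒰 → Ω X 𝒰 := fun 𝒰 h => it_om h.1 h.enum'
  have a : Sfin (T X) (T X) := h.sfin.mono hto fun _ => id
  have b : ¬ S1 (Γ X) (T X) := fun t => h.nohur (GG_of t).ufin
  have c : ¬ S1 (T X) (T X) := fun t => b (t.mono (fun _ => Ga.ta) fun _ => id)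
  have d : ¬ S1 (Ω X) (T X) := fun t => c (t.mono hto fun _ => id)
  exact ⟨X, h.sfin, a, a.mono (fun _ => Ga.ta) fun _ => id, fun t => h.nohur t.ufin, b,
    fun t => c (t.mono (fun _ => id) fun _ => Ga.ta), c,
    fun t => d (t.mono (fun _ => id) fun _ => Ga.ta), d, h.nohur⟩

end Pool.Agent.Results.MP_b17faa_gt.Row16
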